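import Pool.Agent.H.MP_57f692_ag.Defs

namespace Pool.Agent.H.MP_57f692_ag

open Polynomial

variable {s : ℕ} {g : Fin s → ℚ[X]}

/-- `|p| ≤ c` in the order of the preordering -/
def Bd (g : Fin s → ℚ[X]) (c : ℚ) (p : ℚ[X]) : Prop := C c + p ∈ Pre g ∧ C c - p ∈ Pre g

lemma Bd.mul {a b : ℚ} {p q : ℚ[X]} (hp : Bd g a p) (hq : Bd g b q) : Bd g (a * b) (p * q) := by
  have h2 : C (1 / 2 : ℚ) * 2 = (1 : ℚ[X]) := by
    rw [← map_ofNat C, ← C_mul]; norm_num
  constructor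
  · have := Pre_mul (Pre_C (by norm_num : (0:ℚ) ≤ 1 / 2))
      (Pre_add (Pre_mul hp.1 hq.1) (Pre_mul hp.2 hq.2))
    convert this using 1
    rw [C_mul]; linear_combination (-(C a * C b + p * q)) * h2
  · have := Pre_mul (Pre_C (by norm_num : (0:ℚ) ≤ 1 / 2))
      (Pre_add (Pre_mul hp.1 hq.2) (Pre_mul hp.2 hq.1))
    convert this using 1
    rw [C_mul]; linear_combination (-(C a * C b - p * q)) * h2

lemma Bd.add {a b : ℚ} {p q : ℚ[X]} (hp : Bd g a p) (hq : Bd g b q) : Bd g (a + b) (p + q) := by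
  constructor
  · convert Pre_add hp.1 hq.1 using 1; rw [C_add]; ring
  · convert Pre_add hp.2 hq.2 using 1; rw [C_add]; ring

lemma Bd.C {a b : ℚ} (h : |b| ≤ a) : Bd g a (C b) := by
  rw [abs_le] at h
  constructor
  · rw [← C_add]; exact Pre_C (by linarith)
  · rw [← C_sub]; exact Pre_C (by linarith)

lemma Bd.mono {a b : ℚ} {p : ℚ[X]} (hp : Bd g a p) (h : a ≤ b) : Bd g b p := by
  simpa using hp.add (Bd.C (a := b - a) (b := 0) (by simpa using h))

lemma Bd.pow {a : ℚ} {p : ℚ[X]} (hp : Bd g a p) (n : ℕ) : Bd g (a ^ n) (p ^ n) := by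
  induction n with
  | zero => simpa using Bd.C (g := g) (a := 1) (b := 1) (by simp)
  | succ n ih => rw [pow_succ, pow_succ]; exact ih.mul hp

lemma Bd.sum {N δ : ℚ} (hN : Bd g N X) (c : ℕ → ℚ) (hc : ∀ k, |c k| ≤ δ) (d : ℕ) :
    Bd g (δ * ∑ k ∈ Finset.range d, N ^ k) (∑ k ∈ Finset.range d, Polynomial.C (c k) * X ^ k) := by
  induction d with
  | zero => simpa using Bd.C (g := g) (a := 0) (b := 0) (by simp)
  | succ d ih =>
    rw [Finset.sum_range_succ, Finset.sum_range_succ, mul_add]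
    exact ih.add ((Bd.C (hc d)).mul (hN.pow d))

lemma Bd.all {N : ℚ} (hN : Bd g N X) (p : ℚ[X]) : ∃ c, 0 ≤ c ∧ Bd g c p := by
  induction p using Polynomial.induction_on' with
  | add p q hp hq =>
    obtain ⟨a, ha, hp⟩ := hp
    obtain ⟨b, hb, hq⟩ := hq
    exact ⟨a + b, by positivity, hp.add hq⟩
  | monomial n a =>
    refine ⟨|(|a| * N ^ n)|, abs_nonneg _, ?_⟩
    rw [← C_mul_X_pow_eq_monomial]
    exact ((Bd.C le_rfl).mul (hN.pow n)).mono (le_abs_self _)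

lemma cancel {N : ℚ} (hN : Bd g N X) {w h : ℚ[X]} {η : ℚ} (hη : 0 < η) (hw : w - C η ∈ Pre g)
    (hh : h * w ∈ Pre g) {ε : ℚ} (hε : 0 < ε) : C ε + h ∈ Pre g := by
  obtain ⟨B, hB0, hB⟩ := hN.all w
  obtain ⟨A, hA0, hA⟩ := hN.all h
  set M := B + η with hM
  have hM0 : 0 < M := by positivity
  have hMC : C M * C M⁻¹ = (1 : ℚ[X]) := by rw [← C_mul, mul_inv_cancel₀ hM0.ne', C_1]
  set u : ℚ[X] := 1 - C M⁻¹ * w with hu
  have hMi : C M⁻¹ ∈ Pre g := Pre_C (by positivity)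
  have hu0 : u ∈ Pre g := by
    convert Pre_mul hMi (Pre_add hB.2 (Pre_C hη.le)) using 1
    rw [hu, ← hMC, hM, C_add]; ring
  have hθ : Bd g (1 - M⁻¹ * η) u := by
    constructor
    · refine Pre_add (Pre_C ?_) hu0
      rw [sub_nonneg, inv_mul_le_iff₀ hM0]; linarith
    · convert Pre_mul hMi hw using 1
      rw [hu, C_sub, C_mul, C_1]; ring
  obtain ⟨n, hn⟩ := exists_pow_lt_of_lt_one (div_pos hε (by positivity : 0 < A + 1))
    (by have : 0 < M⁻¹ * η := by positivity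
        linarith : 1 - M⁻¹ * η < 1)
  have h1 := (hA.mul (hθ.pow n)).mono (b := ε) (by
    rw [lt_div_iff₀ (by positivity)] at hn
    have : 0 ≤ (1 - M⁻¹ * η) ^ n := by
      apply pow_nonneg; rw [sub_nonneg, inv_mul_le_iff₀ hM0]; linarith
    nlinarith)
  have h2 : ∑ k ∈ Finset.range n, u ^ k ∈ Pre g := Pre_sum _ _ fun k _ => by
    induction k with
    | zero => simpa using Pre_C (g := g) zero_le_one
    | succ k ih => rw [pow_succ]; exact Pre_mul (ih (by simp at *; omega)) hu0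
  convert Pre_add h1.1 (Pre_mul (Pre_mul hh hMi) h2) using 1
  have := geom_sum_mul u n
  rw [hu] at this ⊢
  linear_combination h * this

/-- the real cone generated by the preordering -/
noncomputable def Cone (g : Fin s → ℚ[X]) : AddSubmonoid ℝ[X] :=
  AddSubmonoid.closure {p | ∃ r : ℝ, 0 ≤ r ∧ ∃ q ∈ Pre g, p = C r * q.map (algebraMap ℚ ℝ)}

lemma Cone_gen {r : ℝ} (hr : 0 ≤ r) {q : ℚ[X]} (hq : q ∈ Pre g) :
    C r * q.map (algebraMap ℚ ℝ) ∈ Cone g := AddSubmonoid.subset_closure ⟨r, hr, q, hq, rfl⟩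

lemma Cone_C {r : ℝ} (hr : 0 ≤ r) : C r ∈ Cone g := by
  simpa using Cone_gen hr (Pre_C (g := g) zero_le_one)

lemma Cone_mul {p q : ℝ[X]} (hp : p ∈ Cone g) (hq : q ∈ Cone g) : p * q ∈ Cone g := by
  refine AddSubmonoid.closure_induction₂ (motive := fun p q _ _ => p * q ∈ Cone g) ?_ ?_ ?_ ?_ ?_
    hp hq
  · rintro _ _ ⟨r, hr, a, ha, rfl⟩ ⟨t, ht, b, hb, rfl⟩
    convert Cone_gen (mul_nonneg hr ht) (Pre_mul ha hb) using 1
    rw [C_mul, Polynomial.map_mul]; ring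
  · intro x _; simp
  · intro x _; simp
  · intro x y z _ _ _ h1 h2; rw [add_mul]; exact add_mem h1 h2
  · intro x y z _ _ _ h1 h2; rw [mul_add]; exact add_mem h1 h2

lemma Cone_approx {p : ℝ[X]} (hp : p ∈ Cone g) : ∃ d : ℕ, ∀ δ : ℝ, 0 < δ → ∃ q ∈ Pre g,
    q.natDegree < d ∧ ∀ k, |p.coeff k - q.coeff k| ≤ δ := by
  induction hp using AddSubmonoid.closure_induction with
  | mem x hx =>
    obtain ⟨r, hr, q, hq, rfl⟩ := hx
    refine ⟨q.natDegree + 1, fun δ hδ => ?_⟩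
    obtain ⟨B, hB0, hB⟩ : ∃ B : ℝ, 0 < B ∧ ∀ k, |(q.coeff k : ℝ)| ≤ B := by
      refine ⟨∑ k ∈ q.support, |(q.coeff k : ℝ)| + 1, by positivity, fun k => ?_⟩
      by_cases hk : k ∈ q.support
      · have := Finset.single_le_sum (f := fun k => |(q.coeff k : ℝ)|) (fun _ _ => abs_nonneg _) hk
        linarith
      · rw [notMem_support_iff.1 hk]; simp; positivity
    obtain ⟨a, ha1, ha2⟩ := exists_rat_btwn (show r < r + δ / B by have := div_pos hδ hB0; linarith)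
    refine ⟨C a * q, Pre_mul (Pre_C (by exact_mod_cast hr.trans ha1.le)) hq,
      Nat.lt_succ_of_le (natDegree_C_mul_le _ _), fun k => ?_⟩
    simp only [coeff_C_mul, coeff_map, eq_ratCast, Rat.cast_mul]
    rw [← sub_mul, abs_mul, abs_sub_comm, abs_of_pos (sub_pos.2 ha1)]
    calc _ ≤ δ / B * B := mul_le_mul (by linarith) (hB k) (abs_nonneg _) (by positivity)
      _ = δ := by field_simp
  | zero => exact ⟨1, fun δ hδ => ⟨0, Pre_zero, by simp, fun k => by simpa using hδ.le⟩⟩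
  | add x y _ _ hx hy =>
    obtain ⟨d, hd⟩ := hx
    obtain ⟨e, he⟩ := hy
    refine ⟨max d e, fun δ hδ => ?_⟩
    obtain ⟨a, ha, a1, a2⟩ := hd (δ / 2) (by positivity)
    obtain ⟨b, hb, b1, b2⟩ := he (δ / 2) (by positivity)
    refine ⟨a + b, Pre_add ha hb, (natDegree_add_le _ _).trans_lt (max_lt_max a1 b1), fun k => ?_⟩
    have := a2 k; have := b2 k
    simp only [coeff_add, Rat.cast_add]
    rw [abs_le] at *
    constructor <;> linarith

lemma of_Cone {N : ℚ} (hN : Bd g N X) {f : ℚ[X]} (hf : f.map (algebraMap ℚ ℝ) ∈ Cone g) {ε : ℚ}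
    (hε : 0 < ε) : C ε + f ∈ Pre g := by
  obtain ⟨d, hd⟩ := Cone_approx hf
  set D := max d (f.natDegree + 1)
  set S := ∑ k ∈ Finset.range D, N ^ k
  have hδ : 0 < ε / (|S| + 1) := by positivity
  obtain ⟨q, hq, q1, q2⟩ := hd ((ε / (|S| + 1) : ℚ) : ℝ) (by exact_mod_cast hδ)
  have h1 := hN.sum (fun k => (f - q).coeff k) (δ := ε / (|S| + 1)) (fun k => by
    have := q2 k
    simp only [coeff_map, eq_ratCast] at this
    rw [coeff_sub]; exact_mod_cast this) D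
  rw [← as_sum_range_C_mul_X_pow' (f - q) ((natDegree_sub_le _ _).trans_lt
    (max_lt (lt_max_of_lt_right (Nat.lt_succ_self _)) (lt_max_of_lt_left q1)))] at h1
  have h2 := h1.mono (b := ε) (by
    rw [div_mul_eq_mul_div, div_le_iff₀ (by positivity)]
    have := le_abs_self S
    nlinarith)
  convert Pre_add h2.1 hq using 1; ring

end Pool.Agent.H.MP_57f692_ag
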