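import Mathlib

namespace Pool.Agent.H.MP_57f692_ag

open Polynomial

/-- Finite sums `∑ a_j h_j²` with rational `a_j ≥ 0`. -/
def Sig : Set ℚ[X] :=
  {σ | ∃ (n : ℕ) (a : Fin n → ℚ) (h : Fin n → ℚ[X]), (∀ j, 0 ≤ a j) ∧ σ = ∑ j, C (a j) * h j ^ 2}

/-- The preordering generated by `g 0, …, g (s-1)`. -/
def Pre {s : ℕ} (g : Fin s → ℚ[X]) : Set ℚ[X] :=
  {f | ∃ σ : Finset (Fin s) → ℚ[X], (∀ e, σ e ∈ Sig) ∧ f = ∑ e, σ e * ∏ i ∈ e, g i}

/-- Rational polynomials nonnegative on `K`. -/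
def Pos (K : Set ℝ) : Set ℚ[X] := {f | ∀ t ∈ K, 0 ≤ aeval t f}

lemma Sig_zero : (0 : ℚ[X]) ∈ Sig := ⟨0, Fin.elim0, Fin.elim0, fun j => j.elim0, by simp⟩

lemma Sig_add {p q : ℚ[X]} (hp : p ∈ Sig) (hq : q ∈ Sig) : p + q ∈ Sig := by
  obtain ⟨n, a, h, ha, rfl⟩ := hp
  obtain ⟨m, b, k, hb, rfl⟩ := hq
  refine ⟨n + m, Fin.append a b, Fin.append h k, fun j => ?_, ?_⟩
  · refine Fin.addCases (fun i => ?_) (fun i => ?_) j <;> simp [ha, hb]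
  · simp [Fin.sum_univ_add]

lemma Sig_one {a : ℚ} (ha : 0 ≤ a) (h : ℚ[X]) : C a * h ^ 2 ∈ Sig :=
  ⟨1, fun _ => a, fun _ => h, fun _ => ha, by simp⟩

lemma Sig_sum {ι : Type} (s : Finset ι) (f : ι → ℚ[X]) (h : ∀ i ∈ s, f i ∈ Sig) :
    ∑ i ∈ s, f i ∈ Sig :=
  Finset.sum_induction f (· ∈ Sig) (fun _ _ => Sig_add) Sig_zero h

lemma Sig_mul {p q : ℚ[X]} (hp : p ∈ Sig) (hq : q ∈ Sig) : p * q ∈ Sig := by
  obtain ⟨n, a, h, ha, rfl⟩ := hp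
  obtain ⟨m, b, k, hb, rfl⟩ := hq
  rw [Finset.sum_mul_sum]
  refine Sig_sum _ _ fun i _ => Sig_sum _ _ fun j _ => ?_
  have : C (a i) * h i ^ 2 * (C (b j) * k j ^ 2) = C (a i * b j) * (h i * k j) ^ 2 := by
    rw [C_mul]; ring
  rw [this]
  exact Sig_one (mul_nonneg (ha i) (hb j)) _

variable {s : ℕ} {g : Fin s → ℚ[X]}

lemma Pre_add {p q : ℚ[X]} (hp : p ∈ Pre g) (hq : q ∈ Pre g) : p + q ∈ Pre g := by
  obtain ⟨a, ha, rfl⟩ := hp
  obtain ⟨b, hb, rfl⟩ := hq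
  exact ⟨fun e => a e + b e, fun e => Sig_add (ha e) (hb e), by
    simp [add_mul, Finset.sum_add_distrib]⟩

lemma Pre_zero : (0 : ℚ[X]) ∈ Pre g := ⟨fun _ => 0, fun _ => Sig_zero, by simp⟩

lemma Pre_sum {ι : Type} (t : Finset ι) (f : ι → ℚ[X]) (h : ∀ i ∈ t, f i ∈ Pre g) :
    ∑ i ∈ t, f i ∈ Pre g :=
  Finset.sum_induction f (· ∈ Pre g) (fun _ _ => Pre_add) Pre_zero h

lemma Pre_term {σ : ℚ[X]} (hσ : σ ∈ Sig) (e : Finset (Fin s)) : σ * ∏ i ∈ e, g i ∈ Pre g := by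
  refine ⟨Pi.single e σ, fun e' => ?_, ?_⟩
  · rw [Pi.single_apply]; split_ifs
    · exact hσ
    · exact Sig_zero
  · rw [Finset.sum_eq_single e] <;> simp +contextual

lemma Pre_mul_gen {p : ℚ[X]} (hp : p ∈ Pre g) (i : Fin s) : p * g i ∈ Pre g := by
  obtain ⟨a, ha, rfl⟩ := hp
  rw [Finset.sum_mul]
  refine Pre_sum _ _ fun e _ => ?_
  by_cases h : i ∈ e
  · have : (a e * ∏ j ∈ e, g j) * g i = (a e * (C 1 * g i ^ 2)) * ∏ j ∈ e.erase i, g j := by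
      rw [← Finset.mul_prod_erase e g h, C_1]; ring
    rw [this]
    exact Pre_term (Sig_mul (ha e) (Sig_one zero_le_one _)) _
  · have : (a e * ∏ j ∈ e, g j) * g i = a e * ∏ j ∈ insert i e, g j := by
      rw [Finset.prod_insert h]; ring
    rw [this]
    exact Pre_term (ha e) _

lemma Pre_mul {p q : ℚ[X]} (hp : p ∈ Pre g) (hq : q ∈ Pre g) : p * q ∈ Pre g := by
  obtain ⟨b, hb, rfl⟩ := hq
  rw [Finset.mul_sum]
  refine Pre_sum _ _ fun e _ => ?_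
  have h1 : p * b e ∈ Pre g := by
    obtain ⟨a, ha, rfl⟩ := hp
    rw [Finset.sum_mul]
    refine Pre_sum _ _ fun e' _ => ?_
    rw [mul_right_comm]
    exact Pre_term (Sig_mul (ha _) (hb _)) _
  rw [← mul_assoc]
  generalize p * b e = r at h1
  induction e using Finset.induction_on with
  | empty => simpa using h1
  | insert i e hi ih =>
    rw [Finset.prod_insert hi, mul_comm (g i), ← mul_assoc]
    exact Pre_mul_gen (ih (Finset.mem_univ _)) i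

lemma Pre_sq (h : ℚ[X]) : h ^ 2 ∈ Pre g := by
  simpa using Pre_term (g := g) (Sig_one zero_le_one h) ∅

lemma Pre_C {a : ℚ} (ha : 0 ≤ a) : C a ∈ Pre g := by
  simpa using Pre_term (g := g) (Sig_one ha 1) ∅

lemma Pre_gen (i : Fin s) : g i ∈ Pre g := by
  simpa using Pre_mul_gen (Pre_C (g := g) zero_le_one) i

lemma Pre_sub {K : Set ℝ} (h : ∀ i, g i ∈ Pos K) : Pre g ⊆ Pos K := by
  rintro _ ⟨a, ha, rfl⟩ t ht
  rw [map_sum]
  refine Finset.sum_nonneg fun e _ => ?_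
  rw [map_mul, map_prod]
  refine mul_nonneg ?_ (Finset.prod_nonneg fun i _ => h i t ht)
  obtain ⟨n, b, k, hb, e⟩ := ha e
  rw [e, map_sum]
  refine Finset.sum_nonneg fun j _ => ?_
  rw [map_mul, map_pow, aeval_C]
  exact mul_nonneg (by simpa using hb j) (sq_nonneg _)

end Pool.Agent.H.MP_57f692_ag
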