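import Pool.Agent.H.MP_57f692_ag.Arch

namespace Pool.Agent.H.MP_57f692_ag

open Polynomial Set

variable {s : ℕ} {g : Fin s → ℚ[X]} {α β : ℝ}

lemma pos_Cone (hab : α < β) {N : ℚ} (hN : Bd g N X)
    (hl : ∀ r : ℚ, (r : ℝ) < α → X - C r ∈ Pre g) (hr : ∀ r : ℚ, β < r → C r - X ∈ Pre g)
    (n : ℕ) : ∀ p : ℝ[X], p.natDegree ≤ n → (∀ t ∈ Icc α β, 0 < p.eval t) → p ∈ Cone g := by
  have hα : α ∈ Icc α β := left_mem_Icc.2 hab.le
  induction n with
  | zero =>
    intro p hp h
    rw [eq_C_of_natDegree_le_zero hp] at h ⊢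
    exact Cone_C (by simpa using (h α hα).le)
  | succ n ih =>
    intro p hp h
    rcases le_or_gt p.natDegree n with h0 | h0
    · exact ih p h0 h
    have hp0 : p ≠ 0 := by rintro rfl; simp at h0
    have key : ∀ m : ℝ[X], m ∈ Cone g → (∀ t ∈ Icc α β, 0 < m.eval t) → 0 < m.natDegree →
        m ∣ p → p ∈ Cone g := by
      rintro m hm hm0 hd ⟨k, rfl⟩
      refine Cone_mul hm (ih k ?_ fun t ht => ?_)
      · rw [natDegree_mul (left_ne_zero_of_mul hp0) (right_ne_zero_of_mul hp0)] at hp; omega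
      · have := h t ht
        rw [eval_mul] at this
        exact (pos_iff_pos_of_mul_pos this).1 (hm0 t ht)
    obtain ⟨z, hz⟩ := IsAlgClosed.exists_aeval_eq_zero ℂ p
      (degree_pos_of_ne_zero_of_nonunit hp0 (fun hu => by
        have := natDegree_eq_zero_of_isUnit hu; omega)).ne'
    by_cases him : z.im = 0
    · lift z to ℝ using him
      rw [← Complex.coe_algebraMap, aeval_algebraMap_apply, map_eq_zero, coe_aeval_eq_eval] at hz
      have hdv : X - C z ∣ p := dvd_iff_isRoot.2 hz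
      rcases lt_or_ge z α with h1 | h1
      · obtain ⟨r, r1, r2⟩ := exists_rat_btwn h1
        refine key (X - C z) ?_ (fun t ht => by simp; linarith [ht.1]) (by simp) hdv
        convert add_mem (Cone_gen zero_le_one (hl r r2)) (Cone_C (sub_nonneg.2 r1.le)) using 1
        simp
      · have h2 : β < z := by
          by_contra hn
          exact (h z ⟨h1, not_lt.1 hn⟩).ne' hz
        obtain ⟨r, r1, r2⟩ := exists_rat_btwn h2
        refine key (-(X - C z)) ?_ (fun t ht => by simp; linarith [ht.2])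
          (by rw [natDegree_neg]; simp) (neg_dvd.2 hdv)
        convert add_mem (Cone_gen zero_le_one (hr r r1)) (Cone_C (sub_nonneg.2 r2.le)) using 1
        simp
    · have hdv := p.quadratic_dvd_of_aeval_eq_zero_im_ne_zero hz him
      have hn : ‖z‖ ^ 2 = z.re ^ 2 + z.im ^ 2 := by
        rw [Complex.sq_norm, Complex.normSq_apply]; ring
      have ht : 0 < z.im ^ 2 := by positivity
      refine key _ ?_ (fun t _ => ?_) ?_ hdv
      · set L : ℝ := |(N : ℝ)| + |z.re| + 1 with hL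
        have hL0 : 0 < L := by positivity
        obtain ⟨r, r1, r2⟩ := exists_rat_btwn
          (show z.re < z.re + min 1 (z.im ^ 2 / (2 * L)) by
            have : 0 < min 1 (z.im ^ 2 / (2 * L)) := by positivity
            linarith)
        have a1 : (r : ℝ) - z.re ≤ 1 := by linarith [min_le_left 1 (z.im ^ 2 / (2 * L))]
        have a2 : ((r : ℝ) - z.re) * (2 * L) ≤ z.im ^ 2 := by
          rw [← le_div_iff₀ (by positivity)]; linarith [min_le_right 1 (z.im ^ 2 / (2 * L))]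
        have a3 : 0 ≤ z.im ^ 2 + (r - z.re) ^ 2 - 2 * (r - z.re) * (N + r) := by
          have : (N : ℝ) + r ≤ L := by linarith [le_abs_self (N : ℝ), le_abs_self z.re]
          nlinarith [sq_nonneg ((r : ℝ) - z.re)]
        convert add_mem (add_mem (Cone_gen zero_le_one (Pre_sq (g := g) (X - C r)))
          (Cone_gen (r := 2 * (r - z.re)) (by linarith) hN.1)) (Cone_C a3) using 1
        simp only [hn, Polynomial.map_pow, Polynomial.map_sub, Polynomial.map_add, map_X, map_C,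
          eq_ratCast, C_add, C_sub, C_mul, C_pow, C_1, map_ofNat]
        ring
      · simp only [hn, eval_add, eval_sub, eval_mul, eval_pow, eval_X, eval_C]
        nlinarith [sq_nonneg (t - z.re)]
      · have : (X ^ 2 - C (2 * z.re) * X + C (‖z‖ ^ 2)).natDegree = 2 := by compute_degree!
        omega

lemma pos_Pre (hab : α < β) {N : ℚ} (hN : Bd g N X)
    (hl : ∀ r : ℚ, (r : ℝ) < α → X - C r ∈ Pre g) (hr : ∀ r : ℚ, β < r → C r - X ∈ Pre g)
    (f : ℚ[X]) (h : ∀ t ∈ Icc α β, 0 < aeval t f) : f ∈ Pre g := by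
  obtain ⟨t, ht, hm⟩ := isCompact_Icc.exists_isMinOn (nonempty_Icc.2 hab.le)
    (f.continuous_aeval (A := ℝ)).continuousOn
  obtain ⟨ε, e1, e2⟩ := exists_rat_btwn (h t ht)
  have := of_Cone hN (f := f - C ε) (pos_Cone hab hN hl hr _ _ le_rfl fun u hu => by
    have := hm hu
    rw [eval_map_algebraMap]
    simp only [map_sub, aeval_C, eq_ratCast]
    exact sub_pos.2 (e2.trans_le this)) (ε := ε) (by exact_mod_cast e1)
  simpa using this

lemma div_pos_aux (hab : α < β) {m k : ℚ[X]} (hm0 : m ≠ 0) (hm : m ∈ Pos (Icc α β))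
    (h : m * k ∈ Pos (Icc α β)) : k ∈ Pos (Icc α β) := by
  intro t ht
  by_contra hn
  have ho : IsOpen {u : ℝ | aeval u k < 0} := isOpen_lt k.continuous_aeval continuous_const
  rw [← closure_Ioo hab.ne] at ht
  obtain ⟨u, hu1, hu2⟩ := mem_closure_iff.1 ht _ ho (not_le.1 hn)
  obtain ⟨v, ⟨hv1, hv2⟩, hv⟩ := (infinite_of_mem_nhds u ((ho.inter isOpen_Ioo).mem_nhds
    ⟨hu1, hu2⟩)).exists_notMem_finite (rootSet_finite m ℝ)
  have a1 := hm v (Ioo_subset_Icc_self hv2)
  have a2 := h v (Ioo_subset_Icc_self hv2)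
  rw [mem_rootSet, not_and] at hv
  rw [map_mul] at a2
  exact absurd a2 (not_le.2 (mul_neg_of_pos_of_neg (lt_of_le_of_ne a1 (Ne.symm (hv hm0))) hv1))

theorem pos_eq (hab : α < β) (hg : ∀ i, g i ∈ Pos (Icc α β)) {N : ℚ} (hN : Bd g N X)
    (hl : ∀ r : ℚ, (r : ℝ) < α → X - C r ∈ Pre g) (hr : ∀ r : ℚ, β < r → C r - X ∈ Pre g)
    (ha : ∃ i, 0 < (g i).natDegree ∧ ∀ f : ℚ[X], aeval α f = 0 → g i ∣ f)
    (hb : ∃ i, 0 < (g i).natDegree ∧ ∀ f : ℚ[X], aeval β f = 0 → g i ∣ f) :
    Pos (Icc α β) = Pre g := by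
  refine subset_antisymm (fun f hf => ?_) (Pre_sub hg)
  induction hn : f.natDegree using Nat.strong_induction_on generalizing f with
  | _ n ih =>
  by_cases hf0 : f = 0
  · rw [hf0]; exact Pre_zero
  have key : ∀ m ∈ Pre g, 0 < m.natDegree → m ∣ f → f ∈ Pre g := by
    rintro m hm hd ⟨k, rfl⟩
    refine Pre_mul hm (ih k.natDegree ?_ k (div_pos_aux hab (left_ne_zero_of_mul hf0)
      (Pre_sub hg hm) hf) rfl)
    rw [natDegree_mul (left_ne_zero_of_mul hf0) (right_ne_zero_of_mul hf0)] at hn; omega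
  by_cases hz : ∃ t ∈ Icc α β, aeval t f = 0
  swap
  · exact pos_Pre hab hN hl hr f fun t ht => lt_of_le_of_ne (hf t ht) fun h => hz ⟨t, ht, h.symm⟩
  obtain ⟨t, ht, hz⟩ := hz
  rcases eq_endpoints_or_mem_Ioo_of_mem_Icc ht with rfl | rfl | ht'
  · obtain ⟨i, h1, h2⟩ := ha
    exact key _ (Pre_gen i) h1 (h2 f hz)
  · obtain ⟨i, h1, h2⟩ := hb
    exact key _ (Pre_gen i) h1 (h2 f hz)
  have hint : IsIntegral ℚ t := (isAlgebraic_iff_isIntegral.1 ⟨f, hf0, hz⟩)
  have hmin : IsLocalMin (fun u : ℝ => aeval u f) t := by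
    filter_upwards [Icc_mem_nhds ht'.1 ht'.2] with u hu
    rw [hz]; exact hf u hu
  have hd := hmin.hasDerivAt_eq_zero (f.hasDerivAt_aeval t)
  refine key (minpoly ℚ t ^ 2) (Pre_sq _) ?_ ?_
  · rw [natDegree_pow]; have := minpoly.natDegree_pos hint; omega
  · obtain ⟨k, rfl⟩ := minpoly.dvd ℚ t hz
    rw [derivative_mul, map_add, map_mul, map_mul, minpoly.aeval, zero_mul, add_zero] at hd
    have := (minpoly.irreducible hint).separable.aeval_derivative_ne_zero (minpoly.aeval ℚ t)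
    rw [pow_two]
    exact mul_dvd_mul_left _ (minpoly.dvd ℚ t ((mul_eq_zero.1 hd).resolve_left this))

lemma irr (p : ℕ) (hp : p.Prime) (n : ℕ) (hn : 0 < n) : Irreducible (X ^ n - C (p : ℚ)) := by
  have hm : (X ^ n - C (p : ℤ)).Monic := monic_X_pow_sub_C _ hn.ne'
  have hp' : Prime (p : ℤ) := Nat.prime_iff_prime_int.1 hp
  have h1 : Irreducible (X ^ n - C (p : ℤ)) := by
    refine irreducible_of_eisenstein_criterion (P := Ideal.span {(p : ℤ)})
      ((Ideal.span_singleton_prime hp'.ne_zero).2 hp') ?_ (fun k hk => ?_) ?_ ?_ hm.isPrimitive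
    · rw [hm.leadingCoeff, Ideal.mem_span_singleton]; exact hp'.not_dvd_one
    · rw [degree_X_pow_sub_C hn] at hk
      have hk' : k ≠ n := by intro h; simp [h] at hk
      rw [coeff_sub, coeff_X_pow, if_neg hk', coeff_C, Ideal.mem_span_singleton]
      split_ifs <;> simp
    · rw [degree_X_pow_sub_C hn]; exact_mod_cast hn
    · rw [coeff_sub, coeff_X_pow, if_neg hn.ne, coeff_C_zero, Ideal.span_singleton_pow,
        Ideal.mem_span_singleton, zero_sub, dvd_neg, pow_two]
      intro h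
      exact hp'.not_dvd_one ((mul_dvd_mul_iff_left hp'.ne_zero).1 (by simpa using h))
  have := (hm.irreducible_iff_irreducible_map_fraction_map (K := ℚ)).1 h1
  simpa using this

lemma dvd_of_root (p : ℕ) (hp : p.Prime) (n : ℕ) (hn : 0 < n) {t : ℝ} (ht : t ^ n = p) (f : ℚ[X])
    (hf : aeval t f = 0) : X ^ n - C (p : ℚ) ∣ f := by
  rw [minpoly.eq_of_irreducible_of_monic (irr p hp n hn) (x := t) (by simp [ht])
    (monic_X_pow_sub_C _ hn.ne')]
  exact minpoly.dvd ℚ t hf

end Pool.Agent.H.MP_57f692_ag
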